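import Pool.Agent.Lib.MP_89fcdb_gt.Interfaces

/-!
# MP_89fcdb_gt: module QUOT (orbit spaces of free involutions)
-/

open scoped BigOperators
open Set Topology

namespace Pool.Agent.Lib.MP_89fcdb_gt.H3

noncomputable section

variable {X : Type} [TopologicalSpace X] (T : Invol X)

theorem proj_eq_iff (x y : X) : T.proj x = T.proj y ↔ y = x ∨ y = T.τ x := by
  show (Quotient.mk T.setoid x = Quotient.mk T.setoid y) ↔ _
  rw [Quotient.eq]
  rfl

theorem isOpenMap_proj : IsOpenMap T.proj := by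
  intro U hU
  have h : T.proj ⁻¹' (T.proj '' U) = U ∪ T.τ ⁻¹' U := by
    ext x
    simp only [mem_preimage, mem_image, mem_union]
    constructor
    · rintro ⟨y, hy, hxy⟩
      rcases (proj_eq_iff T y x).mp hxy with rfl | rfl
      · exact Or.inl hy
      · right
        rw [T.sq]
        exact hy
    · rintro (h | h)
      · exact ⟨x, h, rfl⟩
      · exact ⟨T.τ x, h, ((proj_eq_iff T x (T.τ x)).mpr (Or.inr rfl)).symm⟩
  have h2 : IsOpen (T.proj ⁻¹' (T.proj '' U)) := by
    rw [h]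
    exact hU.union (hU.preimage T.τ.continuous)
  exact isQuotientMap_quotient_mk'.isOpen_preimage.mp h2

theorem t2_quot [T2Space X] : T2Space T.Q := by
  refine ⟨?_⟩
  intro a b hab
  obtain ⟨x, rfl⟩ := Quotient.exists_rep a
  obtain ⟨y, rfl⟩ := Quotient.exists_rep b
  have hab' : T.proj x ≠ T.proj y := hab
  have h1 : x ≠ y := fun h => hab' (by rw [h])
  have h2 : x ≠ T.τ y := by
    intro h
    apply hab'
    exact ((proj_eq_iff T y x).mpr (Or.inr h)).symm
  obtain ⟨U, V, hU, hV, hxU, hyV, hUV⟩ := t2_separation h1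
  obtain ⟨U', V', hU', hV', hxU', hyV', hUV'⟩ := t2_separation h2
  refine ⟨T.proj '' (U ∩ U'), T.proj '' (V ∩ T.τ ⁻¹' V'), isOpenMap_proj T _ (hU.inter hU'),
    isOpenMap_proj T _ (hV.inter (hV'.preimage T.τ.continuous)), ⟨x, ⟨hxU, hxU'⟩, rfl⟩,
    ⟨y, ⟨hyV, hyV'⟩, rfl⟩, ?_⟩
  rw [Set.disjoint_left]
  rintro _ ⟨a, ⟨ha, ha'⟩, rfl⟩ ⟨b, ⟨hb, hb'⟩, hab2⟩
  rcases (proj_eq_iff T b a).mp hab2 with h | h
  · exact Set.disjoint_left.mp hUV ha (h ▸ hb)
  · exact Set.disjoint_left.mp hUV' ha' (h ▸ hb')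

/-- Every point has an open neighbourhood on which the projection is injective. -/
theorem exists_inj [T2Space X] (x : X) : ∃ U : Set X, IsOpen U ∧ x ∈ U ∧ InjOn T.proj U := by
  obtain ⟨A, B, hA, hB, hxA, hxB, hAB⟩ := t2_separation (T.free x).symm
  refine ⟨A ∩ T.τ ⁻¹' B, hA.inter (hB.preimage T.τ.continuous), ⟨hxA, hxB⟩, ?_⟩
  rintro a ⟨ha, ha'⟩ b ⟨hb, hb'⟩ hab
  rcases (proj_eq_iff T a b).mp hab with h | h
  · exact h.symm
  · exact absurd ha' (fun h' => Set.disjoint_left.mp hAB hb (h ▸ h'))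

theorem isLocalHomeomorph_proj [T2Space X] : IsLocalHomeomorph T.proj := by
  rw [isLocalHomeomorph_iff_isOpenEmbedding_restrict]
  intro x
  obtain ⟨U, hU, hxU, hinj⟩ := exists_inj T x
  refine ⟨U, hU.mem_nhds hxU, ?_⟩
  exact IsOpenEmbedding.of_continuous_injective_isOpenMap
    (T.proj.continuous.comp continuous_subtype_val) (injOn_iff_injective.mp hinj)
    ((isOpenMap_proj T).comp hU.isOpenMap_subtype_val)

theorem locEuc_quot [T2Space X] (n : ℕ) (h : LocEuc n X) : LocEuc n T.Q := by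
  intro y
  obtain ⟨x, rfl⟩ := Quotient.exists_rep y
  obtain ⟨U, hU, hxU, hinj⟩ := exists_inj T x
  obtain ⟨j, hj, hj0⟩ := h x
  have hopen : IsOpen (j ⁻¹' U) := hU.preimage hj.continuous
  have h0 : (0 : Fin n → ℝ) ∈ j ⁻¹' U := by
    show j 0 ∈ U
    rw [hj0]
    exact hxU
  obtain ⟨r, hr, hball⟩ := Metric.isOpen_iff.mp hopen 0 h0
  set e := OpenPartialHomeomorph.univBall (0 : Fin n → ℝ) r with he
  have hes : e.source = univ := OpenPartialHomeomorph.univBall_source _ _
  have het : e.target = Metric.ball (0 : Fin n → ℝ) r :=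
    OpenPartialHomeomorph.univBall_target _ hr
  have heo : IsOpenEmbedding e := e.isOpenEmbedding hes
  have hmem : ∀ t, j (e t) ∈ U := by
    intro t
    apply hball
    rw [← het]
    exact e.map_source (by rw [hes]; trivial)
  refine ⟨fun t => T.proj (j (e t)), ?_, ?_⟩
  · refine IsOpenEmbedding.of_continuous_injective_isOpenMap ?_ ?_ ?_
    · exact T.proj.continuous.comp (hj.continuous.comp heo.continuous)
    · intro s t hst
      exact heo.injective (hj.injective (hinj (hmem s) (hmem t) hst))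
    · exact (isOpenMap_proj T).comp (hj.isOpenMap.comp heo.isOpenMap)
  · show T.proj (j (e 0)) = T.proj x
    rw [he, OpenPartialHomeomorph.univBall_apply_zero, hj0]

/-- Module [QUOT]. -/
theorem quot : QuotStatement := by
  intro X _ _ _ T
  have hT2 : T2Space T.Q := t2_quot T
  refine ⟨inferInstance, hT2, isOpenMap_proj T, ?_, fun n h => locEuc_quot T n h⟩
  intro y
  refine IsEvenlyCovered.of_openPartialHomeomorph T.proj.continuous ?_
  intro e _
  obtain ⟨φ, hφ, hφ'⟩ := isLocalHomeomorph_proj T e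
  exact ⟨φ, hφ, hφ'.symm⟩

end

end Pool.Agent.Lib.MP_89fcdb_gt.H3
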